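import Pool.Agent.Q302.RN.Fin

/-!
# The circle homeomorphisms with irrational rotation number form a Haar null set
-/

set_option autoImplicit false

open MeasureTheory Topology Filter

namespace Pool.Agent.Results.MP_e0518f_lc.IrrationalHaarNull

/-- `F` is a lift of the circle map `f`: a strictly increasing continuous map of the line with
`F (x + 1) = F x + 1`. -/
def IsLift (F : ℝ → ℝ) (f : C(UnitAddCircle, UnitAddCircle)) : Prop :=
  Continuous F ∧ StrictMono F ∧ (∀ x, F (x + 1) = F x + 1) ∧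
    ∀ x : ℝ, f (x : UnitAddCircle) = (F x : UnitAddCircle)

/-- The orientation preserving homeomorphisms of the circle `ℝ / ℤ`, inside the space of its
continuous self-maps with the compact-open topology. -/
def HomeoPlus : Set C(UnitAddCircle, UnitAddCircle) := {f | ∃ F : ℝ → ℝ, IsLift F f}

/-- The real number `τ` is the translation number of a lift of `f`. -/
def HasRotationNumber (f : C(UnitAddCircle, UnitAddCircle)) (τ : ℝ) : Prop :=
  ∃ F : ℝ → ℝ, IsLift F f ∧ ∀ x : ℝ, Tendsto (fun n : ℕ => (F^[n] x - x) / n) atTop (𝓝 τ)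

/-- The homeomorphisms with irrational rotation number. -/
def irrationalRotation : Set HomeoPlus := {f | ∃ τ : ℝ, Irrational τ ∧ HasRotationNumber f.1 τ}

/-- `A` is Haar null: it lies in a Borel set all of whose two-sided translates are null for one
Borel probability measure. -/
def HaarNull (A : Set HomeoPlus) : Prop :=
  ∃ B : Set HomeoPlus, A ⊆ B ∧ @MeasurableSet HomeoPlus (borel HomeoPlus) B ∧
    ∃ μ : @Measure HomeoPlus (borel HomeoPlus), @IsProbabilityMeasure HomeoPlus (borel HomeoPlus) μ ∧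
      ∀ g h : HomeoPlus, μ {x : HomeoPlus | ∃ b ∈ B, x.1 = g.1.comp (b.1.comp h.1)} = 0

theorem isLift_iff (F : ℝ → ℝ) (f : C(UnitAddCircle, UnitAddCircle)) :
    IsLift F f ↔ Pool.Agent.Q302.RN.IsLift F f :=
  ⟨fun h => ⟨h.1, h.2.1, h.2.2.1, h.2.2.2⟩, fun h => ⟨h.cont, h.mono, h.add_one, h.coe⟩⟩

theorem homeoPlus_eq : HomeoPlus = Pool.Agent.Q302.RN.HomeoPlus := by
  ext f
  exact exists_congr fun F => isLift_iff F f

theorem haarNull_of (h : HomeoPlus = Pool.Agent.Q302.RN.HomeoPlus) :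
    MeasurableSet[borel HomeoPlus] {f : HomeoPlus | f.1 ∈ Pool.Agent.Q302.RN.NP} ∧
    ∃ μ : @Measure HomeoPlus (borel HomeoPlus), @IsProbabilityMeasure HomeoPlus (borel HomeoPlus) μ ∧
      ∀ g h : HomeoPlus, μ {x : HomeoPlus | ∃ b ∈ {f : HomeoPlus | f.1 ∈ Pool.Agent.Q302.RN.NP},
        x.1 = g.1.comp (b.1.comp h.1)} = 0 := by
  rw [h]
  exact Pool.Agent.Q302.RN.main _ rfl

theorem result : HaarNull irrationalRotation := by
  refine ⟨{f : HomeoPlus | f.1 ∈ Pool.Agent.Q302.RN.NP}, ?_, haarNull_of homeoPlus_eq⟩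
  rintro f ⟨τ, hτ, F, hF, hlim⟩ n hn z hz
  exact Pool.Agent.Q302.RN.not_irrational ((isLift_iff F f.1).1 hF) hn hz hlim hτ

end Pool.Agent.Results.MP_e0518f_lc.IrrationalHaarNull
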